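import Mathlib

/-!
# Orders of finite quasigroups satisfying ((xy)x)y = x

We show that the order of every finite quasigroup satisfying the identity ((xy)x)y = x is
congruent to 0 or 1 modulo 4.
-/

set_option autoImplicit false

namespace Pool.Agent.Results.MP_425159_co.OrderModFour

/-- The binary operation `mul` makes `S` a quasigroup: every equation `a x = b` and every
equation `x a = b` has exactly one solution. -/
def IsQuasigroup {S : Type*} (mul : S → S → S) : Prop :=
  ∀ a b : S, (∃! x, mul a x = b) ∧ (∃! x, mul x a = b)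

/-- The identity (E): ((xy)x)y = x. -/
def SatisfiesE {S : Type*} (mul : S → S → S) : Prop :=
  ∀ x y : S, mul (mul (mul x y) x) y = x

/-- The spectrum of (E): the positive integers `n` for which some quasigroup of order `n`
satisfies (E). -/
def InSpectrum (n : ℕ) : Prop :=
  0 < n ∧ ∃ mul : Fin n → Fin n → Fin n, IsQuasigroup mul ∧ SatisfiesE mul

/-- Every order in the spectrum of (E) is congruent to 0 or 1 modulo 4. -/
theorem result (n : ℕ) (hn : InSpectrum n) : n % 4 = 0 ∨ n % 4 = 1 := by
  obtain ⟨_, mul, hq, hE⟩ := hn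
  -- right and left cancellation
  have hr : ∀ a x y, mul x a = mul y a → x = y := fun a x y h =>
    (hq a (mul y a)).2.unique h rfl
  have hl : ∀ a x y, mul a x = mul a y → x = y := fun a x y h =>
    (hq a (mul a y)).1.unique h rfl
  -- two permutations of the set of ordered pairs
  let s : Fin n × Fin n → Fin n × Fin n := fun p => (mul p.1 p.2, p.1)
  let t : Fin n × Fin n → Fin n × Fin n := fun p => (mul p.1 p.2, p.2)
  have hs : Function.Injective s := by
    rintro ⟨x, y⟩ ⟨x', y'⟩ h
    simp only [s, Prod.mk.injEq] at h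
    obtain ⟨h1, rfl⟩ := h
    rw [hl _ _ _ h1]
  have ht : Function.Injective t := by
    rintro ⟨x, y⟩ ⟨x', y'⟩ h
    simp only [t, Prod.mk.injEq] at h
    obtain ⟨h1, rfl⟩ := h
    rw [hr _ _ _ h1]
  let σ : Equiv.Perm (Fin n × Fin n) := Equiv.ofBijective s (Finite.injective_iff_bijective.mp hs)
  let τ : Equiv.Perm (Fin n × Fin n) := Equiv.ofBijective t (Finite.injective_iff_bijective.mp ht)
  let ι : Equiv.Perm (Fin n × Fin n) := Equiv.prodComm (Fin n) (Fin n)
  have hσ : ∀ p, σ p = (mul p.1 p.2, p.1) := fun p => rfl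
  have hτ : ∀ p, τ p = (mul p.1 p.2, p.2) := fun p => rfl
  have hι : ∀ p, ι p = (p.2, p.1) := fun p => rfl
  -- the relation between them and the swap
  have hrel : ι * τ * σ = σ * τ⁻¹ := by
    ext1 ⟨x, y⟩
    have hinv : τ⁻¹ (x, y) = (mul (mul x y) x, y) := by
      rw [Equiv.Perm.inv_eq_iff_eq, hτ]
      simp only [hE x y]
    rw [Equiv.Perm.mul_apply, Equiv.Perm.mul_apply, Equiv.Perm.mul_apply, hinv, hσ, hσ, hτ, hι]
    simp only [hE x y]
  -- hence the swap is an even permutation
  have hsign : Equiv.Perm.sign ι = 1 := by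
    have h := congrArg Equiv.Perm.sign hrel
    rw [map_mul, map_mul, map_mul, map_inv, mul_comm (Equiv.Perm.sign σ), Int.units_inv_eq_self]
      at h
    have h2 := mul_right_cancel h
    have h3 : Equiv.Perm.sign ι * Equiv.Perm.sign τ = 1 * Equiv.Perm.sign τ := by
      rw [one_mul]; exact h2
    exact mul_right_cancel h3
  have hι2 : ι ^ 2 = 1 := by
    ext1 p
    rw [pow_two, Equiv.Perm.mul_apply, hι, hι]
    rfl
  rw [Equiv.Perm.sign_of_pow_two_eq_one hι2] at hsign
  have hfix : Fintype.card (Function.fixedPoints ι) = n := by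
    refine (Fintype.card_congr (β := Fin n) ?_).trans (Fintype.card_fin n)
    refine ⟨fun p => p.1.1, fun x => ⟨(x, x), rfl⟩, ?_, ?_⟩
    · rintro ⟨⟨x, y⟩, h⟩
      have h' : ι (x, y) = (x, y) := h
      rw [hι] at h'
      simp only [Prod.mk.injEq] at h'
      simp [h'.2]
    · intro x; rfl
  rw [hfix, Fintype.card_prod, Fintype.card_fin] at hsign
  have heven : Even ((n * n - n) / 2) := by
    rw [← neg_one_pow_eq_one_iff_even (R := ℤ) (by norm_num)]
    have := congrArg (Units.val) hsign
    simpa using this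
  -- arithmetic
  obtain ⟨k, hk⟩ := heven
  have h2 : 2 ∣ n * n - n := by
    have : n * n - n = n * (n - 1) := by rw [Nat.mul_sub, mul_one]
    rw [this]
    exact (Nat.even_mul_pred_self n).two_dvd
  have h4 : n * n - n = 4 * k := by omega
  have h5 : n ≤ n * n := Nat.le_mul_self n
  have h6 : n * n = 4 * k + n := by omega
  have h7 : (n * n) % 4 = n % 4 := by rw [h6]; omega
  rw [Nat.mul_mod] at h7
  have h8 : n % 4 < 4 := Nat.mod_lt _ (by norm_num)
  interval_cases h : n % 4 <;> simp_all

end Pool.Agent.Results.MP_425159_co.OrderModFour
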